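import Mathlib

/-!
# The dual of a non-separable metrizable Abelian group need not be an s-group
-/

set_option autoImplicit false
set_option linter.style.haveILetI false

namespace Pool.Agent.Results.MP_c8715f_al.DualNotS

open Topology Filter Set BoundedContinuousFunction

/-! ## Definitions -/

/-- A Hausdorff group topology on an Abelian group. -/
def IsHausdorffGroupTopology {G : Type*} [AddCommGroup G] (t : TopologicalSpace G) : Prop :=
  @T2Space G t ∧ @IsTopologicalAddGroup G t _

/-- All sequences of `S` converge to `0` in the topology `t`. -/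
def AllConverge {G : Type*} [AddCommGroup G] (S : Set (ℕ → G)) (t : TopologicalSpace G) : Prop :=
  ∀ s ∈ S, Tendsto s atTop (@nhds G t 0)

/-- A set `S` of sequences is a TS-set if some Hausdorff group topology makes all of them converge
to `0`. -/
def IsTSSet {G : Type*} [AddCommGroup G] (S : Set (ℕ → G)) : Prop :=
  ∃ t : TopologicalSpace G, IsHausdorffGroupTopology t ∧ AllConverge S t

/-- `(G, τ)` is an s-group: for some TS-set `S`, the topology `τ` is the finest Hausdorff group
topology in which all the sequences of `S` converge to `0`. -/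
def IsSGroup (G : Type*) [AddCommGroup G] [τ : TopologicalSpace G] : Prop :=
  ∃ S : Set (ℕ → G), IsTSSet S ∧
    IsLeast {t : TopologicalSpace G | IsHausdorffGroupTopology t ∧ AllConverge S t} τ

/-- The dual group: all continuous characters with the compact-open topology. -/
abbrev Dual (G : Type*) [AddCommGroup G] [TopologicalSpace G] : Type _ :=
  ContinuousAddMonoidHom G UnitAddCircle

/-! ## A criterion -/

theorem not_isSGroup {H : Type*} [AddCommGroup H] [TopologicalSpace H] [T2Space H]
    [IsTopologicalAddGroup H] (F : H →+ ℝ)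
    (hseq : ∀ s : ℕ → H, Tendsto s atTop (𝓝 0) → Tendsto (fun n => F (s n)) atTop (𝓝 0))
    (hF : ¬ Continuous F) : ¬ IsSGroup H := by
  rintro ⟨S, -, ⟨-, hS⟩, hmin⟩
  apply hF
  rename_i τ hT2 hG
  have h1 : @IsTopologicalAddGroup H (τ ⊓ TopologicalSpace.induced F inferInstance) _ :=
    topologicalAddGroup_inf hG (topologicalAddGroup_induced F)
  have h2 : @T2Space H (τ ⊓ TopologicalSpace.induced F inferInstance) := by
    refine @T2Space.of_injective_continuous H H (τ ⊓ TopologicalSpace.induced F inferInstance)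
      τ hT2 id Function.injective_id ?_
    exact continuous_id_iff_le.mpr inf_le_left
  have h3 : AllConverge S (τ ⊓ TopologicalSpace.induced F inferInstance) := by
    intro s hs
    rw [nhds_inf, nhds_induced, tendsto_inf, tendsto_comap_iff]
    refine ⟨hS s hs, ?_⟩
    rw [map_zero]
    exact hseq s (hS s hs)
  have h4 : τ ≤ τ ⊓ TopologicalSpace.induced F inferInstance := hmin ⟨⟨h2, h1⟩, h3⟩
  exact continuous_iff_le_induced.mpr (h4.trans inf_le_right)

/-! ## The Banach space of bounded sequences -/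

/-- The Banach space of bounded real sequences. -/
abbrev X : Type := ℕ →ᵇ ℝ

open Classical in
/-- The indicator function of a set. -/
noncomputable def ind (A : Set ℕ) : X :=
  BoundedContinuousFunction.ofNormedAddCommGroupDiscrete (fun n => if n ∈ A then 1 else 0) 1
    (fun n => by by_cases h : n ∈ A <;> simp [h])

theorem ind_of_mem {A : Set ℕ} {n : ℕ} (h : n ∈ A) : ind A n = 1 := if_pos h

theorem ind_of_notMem {A : Set ℕ} {n : ℕ} (h : n ∉ A) : ind A n = 0 := if_neg h

theorem norm_ind_le (A : Set ℕ) : ‖ind A‖ ≤ 1 := by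
  rw [BoundedContinuousFunction.norm_le zero_le_one]
  intro n
  by_cases h : n ∈ A
  · rw [ind_of_mem h]; simp
  · rw [ind_of_notMem h]; simp

theorem not_separable : ¬ TopologicalSpace.SeparableSpace X := by
  intro hsep
  have h1 : (univ : Set (Set ℕ)).PairwiseDisjoint fun A => Metric.ball (ind A) (1 / 2) := by
    intro A _ B _ hAB
    rw [Function.onFun, Set.disjoint_left]
    intro x hx hy
    rw [Metric.mem_ball] at hx hy
    have h2 : dist (ind A) (ind B) < 1 := by
      calc dist (ind A) (ind B) ≤ dist x (ind A) + dist x (ind B) := dist_triangle_left _ _ _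
        _ < 1 / 2 + 1 / 2 := add_lt_add hx hy
        _ = 1 := by norm_num
    apply hAB
    ext n
    have h3 : dist (ind A n) (ind B n) < 1 := lt_of_le_of_lt (dist_coe_le_dist n) h2
    by_cases hA : n ∈ A <;> by_cases hB : n ∈ B
    · exact ⟨fun _ => hB, fun _ => hA⟩
    · rw [ind_of_mem hA, ind_of_notMem hB] at h3
      norm_num at h3
    · rw [ind_of_notMem hA, ind_of_mem hB] at h3
      norm_num at h3
    · exact ⟨fun h => absurd h hA, fun h => absurd h hB⟩
  have h2 := h1.countable_of_isOpen (fun A _ => Metric.isOpen_ball)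
    (fun A _ => ⟨ind A, Metric.mem_ball_self (by norm_num)⟩)
  have h3 : Countable (Set ℕ) := Set.countable_univ_iff.mp h2
  obtain ⟨f, hf⟩ := exists_surjective_nat (Set ℕ)
  exact Function.cantor_surjective f hf

/-- Functionals have bounded total mass on disjoint sets. -/
theorem sum_abs_le (φ : X →L[ℝ] ℝ) {ι : Type*} (s : Finset ι) (A : ι → Set ℕ)
    (hA : (s : Set ι).PairwiseDisjoint A) : ∑ i ∈ s, |φ (ind (A i))| ≤ ‖φ‖ := by
  classical
  let x : X := ∑ i ∈ s, (SignType.sign (φ (ind (A i))) : ℝ) • ind (A i)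
  have h1 : φ x = ∑ i ∈ s, |φ (ind (A i))| := by
    simp only [x, map_sum, map_smul, smul_eq_mul]
    apply Finset.sum_congr rfl
    intro i _
    exact sign_mul_self _
  have h2 : ‖x‖ ≤ 1 := by
    rw [BoundedContinuousFunction.norm_le zero_le_one]
    intro n
    have h3 : x n = ∑ i ∈ s, (SignType.sign (φ (ind (A i))) : ℝ) * ind (A i) n := by
      simp only [x, BoundedContinuousFunction.coe_sum, Finset.sum_apply,
        BoundedContinuousFunction.coe_smul, smul_eq_mul]
    rw [h3]
    by_cases hex : ∃ i ∈ s, n ∈ A i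
    · obtain ⟨i, hi, hn⟩ := hex
      rw [Finset.sum_eq_single i]
      · rw [ind_of_mem hn, mul_one, Real.norm_eq_abs]
        rcases SignType.trichotomy (SignType.sign (φ (ind (A i)))) with h | h | h <;> rw [h] <;>
          norm_num
      · intro j hj hji
        have : n ∉ A j := fun hnj => Set.disjoint_left.mp (hA hj hi hji) hnj hn
        rw [ind_of_notMem this, mul_zero]
      · intro h
        exact absurd hi h
    · push Not at hex
      rw [Finset.sum_eq_zero]
      · simp
      · intro i hi
        rw [ind_of_notMem (hex i hi), mul_zero]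
  rw [← h1]
  calc φ x ≤ |φ x| := le_abs_self _
    _ ≤ ‖φ‖ * ‖x‖ := φ.le_opNorm x
    _ ≤ ‖φ‖ * 1 := by gcongr
    _ = ‖φ‖ := mul_one _

/-- The values on the unit vectors. -/
noncomputable def co (φ : X →L[ℝ] ℝ) (k : ℕ) : ℝ := φ (ind {k})

theorem co_sum_le (φ : X →L[ℝ] ℝ) (s : Finset ℕ) : ∑ k ∈ s, |co φ k| ≤ ‖φ‖ := by
  refine sum_abs_le φ s (fun k => {k}) ?_
  intro i _ j _ hij
  exact Set.disjoint_singleton.mpr hij

theorem summable_abs (φ : X →L[ℝ] ℝ) : Summable fun k => |co φ k| :=
  summable_of_sum_le (fun _ => abs_nonneg _) (co_sum_le φ)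

theorem summable_co (φ : X →L[ℝ] ℝ) : Summable (co φ) := (summable_abs φ).of_abs

theorem summable_mul (φ : X →L[ℝ] ℝ) (x : X) : Summable fun k => co φ k * x k := by
  refine Summable.of_norm_bounded ((summable_abs φ).mul_right ‖x‖) fun k => ?_
  rw [norm_mul, Real.norm_eq_abs]
  exact mul_le_mul_of_nonneg_left (x.norm_coe_le_norm k) (abs_nonneg _)

/-- The absolutely summable part of a functional. -/
noncomputable def ell (φ : X →L[ℝ] ℝ) : X →L[ℝ] ℝ :=
  LinearMap.mkContinuous
    { toFun := fun x => ∑' k, co φ k * x k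
      map_add' := fun x y => by
        rw [← (summable_mul φ x).tsum_add (summable_mul φ y)]
        apply tsum_congr
        intro k
        rw [BoundedContinuousFunction.add_apply, mul_add]
      map_smul' := fun c x => by
        rw [RingHom.id_apply, smul_eq_mul, ← tsum_mul_left]
        apply tsum_congr
        intro k
        rw [BoundedContinuousFunction.smul_apply, smul_eq_mul]
        ring }
    (∑' k, |co φ k|) (fun x => by
      show ‖∑' k, co φ k * x k‖ ≤ _
      rw [← tsum_mul_right]
      refine tsum_of_norm_bounded ((summable_abs φ).mul_right ‖x‖).hasSum fun k => ?_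
      rw [norm_mul, Real.norm_eq_abs]
      exact mul_le_mul_of_nonneg_left (x.norm_coe_le_norm k) (abs_nonneg _))

theorem ell_apply (φ : X →L[ℝ] ℝ) (x : X) : ell φ x = ∑' k, co φ k * x k := rfl

/-- The singular part of a functional. -/
noncomputable def sing (φ : X →L[ℝ] ℝ) : X →L[ℝ] ℝ := φ - ell φ

theorem ell_single (φ : X →L[ℝ] ℝ) (k : ℕ) : ell φ (ind {k}) = φ (ind {k}) := by
  rw [ell_apply, tsum_eq_single k]
  · rw [ind_of_mem (Set.mem_singleton k), mul_one]
    rfl
  · intro j hj
    rw [ind_of_notMem (by simpa using hj), mul_zero]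

theorem sing_single (φ : X →L[ℝ] ℝ) (k : ℕ) : sing φ (ind {k}) = 0 := by
  show φ (ind {k}) - ell φ (ind {k}) = 0
  rw [ell_single, sub_self]

theorem ind_union {A B : Set ℕ} (h : Disjoint A B) : ind (A ∪ B) = ind A + ind B := by
  ext n
  rw [BoundedContinuousFunction.add_apply]
  by_cases hA : n ∈ A
  · rw [ind_of_mem hA, ind_of_mem (Or.inl hA), ind_of_notMem (Set.disjoint_left.mp h hA), add_zero]
  · by_cases hB : n ∈ B
    · rw [ind_of_notMem hA, ind_of_mem hB, ind_of_mem (Or.inr hB), zero_add]
    · rw [ind_of_notMem hA, ind_of_notMem hB, ind_of_notMem (fun h => h.elim hA hB), add_zero]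

theorem sing_finite (φ : X →L[ℝ] ℝ) {A : Set ℕ} (hA : A.Finite) : sing φ (ind A) = 0 := by
  induction A, hA using Set.Finite.induction_on with
  | empty =>
    have : ind ∅ = 0 := by
      ext n
      exact ind_of_notMem (Set.notMem_empty n)
    rw [this, map_zero]
  | @insert a s ha _ ih =>
    rw [Set.insert_eq, ind_union (Set.disjoint_singleton_left.mpr ha), map_add, sing_single, ih,
      add_zero]

theorem sing_diff (φ : X →L[ℝ] ℝ) (A : Set ℕ) {B : Set ℕ} (hB : B.Finite) :
    sing φ (ind (A \ B)) = sing φ (ind A) := by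
  have h1 : A = (A \ B) ∪ (A ∩ B) := (Set.sdiff_union_inter A B).symm
  have h2 : Disjoint (A \ B) (A ∩ B) := Set.disjoint_left.mpr fun x hx hy => hx.2 hy.2
  conv_rhs => rw [h1, ind_union h2, map_add, sing_finite φ (hB.inter_of_right A), add_zero]

/-- A singular functional vanishes on all but countably many members of an almost disjoint
family. -/
theorem countable_sing (φ : X →L[ℝ] ℝ) {ι : Type*} (U : ι → Set ℕ)
    (hU : ∀ i j, i ≠ j → (U i ∩ U j).Finite) : {i | sing φ (ind (U i)) ≠ 0}.Countable := by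
  classical
  have h1 : Summable fun i => |sing φ (ind (U i))| := by
    refine summable_of_sum_le (c := ‖sing φ‖) (fun _ => abs_nonneg _) fun s => ?_
    let B : Set ℕ := ⋃ p ∈ s ×ˢ s, if p.1 = p.2 then ∅ else U p.1 ∩ U p.2
    have hB : B.Finite := by
      refine Set.Finite.biUnion (Finset.finite_toSet _) fun p _ => ?_
      by_cases h : p.1 = p.2
      · rw [if_pos h]; exact Set.finite_empty
      · rw [if_neg h]; exact hU _ _ h
    have h2 : ∀ i, |sing φ (ind (U i))| = |sing φ (ind (U i \ B))| := fun i => by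
      rw [sing_diff φ (U i) hB]
    rw [Finset.sum_congr rfl fun i _ => h2 i]
    refine sum_abs_le (sing φ) s (fun i => U i \ B) ?_
    intro i hi j hj hij
    refine Set.disjoint_left.mpr fun x hx hy => hx.2 ?_
    refine Set.mem_biUnion (x := (i, j)) (Finset.mem_product.mpr ⟨hi, hj⟩) ?_
    rw [if_neg hij]
    exact ⟨hx.1, hy.1⟩
  refine h1.countable_support.mono fun i hi => ?_
  exact abs_ne_zero.mpr hi

/-! ## Phillips' lemma -/

section hump

open Classical in
/-- A code for a finite initial part of a set. -/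
noncomputable def code (α : Set ℕ) (n : ℕ) : ℕ :=
  Encodable.encode ((List.range n).map fun i => decide (i ∈ α))

/-- An almost disjoint family. -/
def M (α : Set ℕ) : Set ℕ := range (code α)

theorem code_eq {α β : Set ℕ} {m n : ℕ} (h : code α m = code β n) :
    m = n ∧ ∀ i < m, (i ∈ α ↔ i ∈ β) := by
  classical
  have h1 := Encodable.encode_injective h
  have h2 : m = n := by
    have := congrArg List.length h1
    simpa using this
  subst h2
  refine ⟨rfl, fun i hi => ?_⟩
  have h3 := List.map_inj_left.mp h1 i (List.mem_range.mpr hi)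
  exact decide_eq_decide.mp h3

theorem M_infinite (α : Set ℕ) : (M α).Infinite :=
  Set.infinite_range_of_injective fun _ _ h => (code_eq h).1

theorem M_inter {α β : Set ℕ} (h : α ≠ β) : (M α ∩ M β).Finite := by
  obtain ⟨i, hi⟩ : ∃ i, ¬ (i ∈ α ↔ i ∈ β) := by
    by_contra hcon
    push Not at hcon
    exact h (Set.ext hcon)
  refine ((Set.finite_le_nat i).image (code α)).subset ?_
  rintro x ⟨⟨m, rfl⟩, ⟨n, hn⟩⟩
  refine ⟨m, ?_, rfl⟩
  by_contra hlt
  have hlt' : i < m := not_le.mp hlt
  exact hi ((code_eq hn.symm).2 i hlt')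

/-- The union of the blocks with index in `M α`. -/
def U (p : ℕ → ℕ) (α : Set ℕ) : Set ℕ := {k | ∃ i ∈ M α, p i ≤ k ∧ k < p (i + 1)}

theorem U_inter {p : ℕ → ℕ} (hp : StrictMono p) {α β : Set ℕ} (h : α ≠ β) :
    (U p α ∩ U p β).Finite := by
  refine ((M_inter h).biUnion fun i _ => Set.finite_Ico (p i) (p (i + 1))).subset ?_
  rintro k ⟨⟨i, hi, h1, h2⟩, ⟨j, hj, h3, h4⟩⟩
  have hij : i = j := by
    rcases lt_trichotomy i j with hlt | heq | hgt
    · have := hp.monotone (Nat.succ_le_of_lt hlt)
      simp only [Nat.succ_eq_add_one] at this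
      omega
    · exact heq
    · have := hp.monotone (Nat.succ_le_of_lt hgt)
      simp only [Nat.succ_eq_add_one] at this
      omega
  subst hij
  exact Set.mem_biUnion (⟨hi, hj⟩ : i ∈ M α ∩ M β) ⟨h1, h2⟩

theorem step {φ : ℕ → X →L[ℝ] ℝ} (h : ∀ x, Tendsto (fun n => φ n x) atTop (𝓝 0)) {δ : ℝ}
    (hδ : 0 < δ) (hbig : ∀ m, ∃ n ≥ m, δ ≤ |∑' k, co (φ n) k|) (q : ℕ × ℕ) :
    ∃ q' : ℕ × ℕ, q.1 < q'.1 ∧ q.2 < q'.2 ∧ δ ≤ |∑' k, co (φ q'.1) k| ∧
      ∑' k, |co (φ q'.1) k| - ∑ k ∈ Finset.Ico q.2 q'.2, |co (φ q'.1) k| < δ / 4 := by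
  have h1 : Tendsto (fun n => ∑ k ∈ Finset.range q.2, |co (φ n) k|) atTop (𝓝 0) := by
    have h2 : ∀ k ∈ Finset.range q.2, Tendsto (fun n => |co (φ n) k|) atTop (𝓝 0) := by
      intro k _
      have := (h (ind {k})).abs
      rwa [abs_zero] at this
    have h3 := tendsto_finsetSum (Finset.range q.2) h2
    rwa [Finset.sum_const_zero] at h3
  obtain ⟨N₁, hN₁⟩ := eventually_atTop.mp (h1.eventually (gt_mem_nhds (by positivity : 0 < δ / 8)))
  obtain ⟨n, hn, hnδ⟩ := hbig (max N₁ (q.1 + 1))
  have hn1 := hN₁ n (le_trans (le_max_left _ _) hn)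
  have hn2 : q.1 + 1 ≤ n := le_trans (le_max_right _ _) hn
  have h4 := (summable_abs (φ n)).hasSum.tendsto_sum_nat
  obtain ⟨N₂, hN₂⟩ := eventually_atTop.mp
    (h4.eventually (lt_mem_nhds (by linarith : ∑' k, |co (φ n) k| - δ / 8 < ∑' k, |co (φ n) k|)))
  refine ⟨(n, max N₂ (q.2 + 1)), ?_, ?_, hnδ, ?_⟩
  · exact hn2
  · exact lt_of_lt_of_le (Nat.lt_succ_self _) (le_max_right _ _)
  · have h5 := hN₂ (max N₂ (q.2 + 1)) (le_max_left _ _)
    have h6 : q.2 ≤ max N₂ (q.2 + 1) := le_trans (Nat.le_succ _) (le_max_right _ _)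
    simp only
    rw [Finset.sum_Ico_eq_sub _ h6]
    linarith

/-- A form of Phillips' lemma. -/
theorem phillips (φ : ℕ → X →L[ℝ] ℝ) (h : ∀ x, Tendsto (fun n => φ n x) atTop (𝓝 0)) :
    Tendsto (fun n => ∑' k, co (φ n) k) atTop (𝓝 0) := by
  classical
  by_contra hcon
  rw [Metric.tendsto_atTop] at hcon
  push Not at hcon
  obtain ⟨δ, hδ, hbig⟩ := hcon
  have hbig' : ∀ m, ∃ n ≥ m, δ ≤ |∑' k, co (φ n) k| := fun m => by
    obtain ⟨n, hn, hnδ⟩ := hbig m
    refine ⟨n, hn, ?_⟩
    rwa [Real.dist_eq, sub_zero] at hnδ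
  choose nxt hn1 hn2 hn3 hn4 using step h hδ hbig'
  let q : ℕ → ℕ × ℕ := fun j => Nat.rec (0, 0) (fun _ r => nxt r) j
  have hq : ∀ j, q (j + 1) = nxt (q j) := fun j => rfl
  let p : ℕ → ℕ := fun j => (q j).2
  have hp : StrictMono p := strictMono_nat_of_lt_succ fun j => hn2 (q j)
  have hnn : StrictMono fun j => (q j).1 := strictMono_nat_of_lt_succ fun j => hn1 (q j)
  -- choose the member of the almost disjoint family
  have hcount : (⋃ j : ℕ, {α : Set ℕ | sing (φ (q (j + 1)).1) (ind (U p α)) ≠ 0}).Countable :=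
    Set.countable_iUnion fun j => countable_sing _ (U p) fun α β hαβ => U_inter hp hαβ
  obtain ⟨α, hα⟩ : ∃ α : Set ℕ, ∀ j : ℕ, sing (φ (q (j + 1)).1) (ind (U p α)) = 0 := by
    by_contra hno
    push Not at hno
    have h1 : (⋃ j : ℕ, {α : Set ℕ | sing (φ (q (j + 1)).1) (ind (U p α)) ≠ 0}) = univ := by
      rw [Set.eq_univ_iff_forall]
      intro α
      exact Set.mem_iUnion.mpr (hno α)
    rw [h1] at hcount
    haveI : Countable (Set ℕ) := Set.countable_univ_iff.mp hcount
    obtain ⟨f, hf⟩ := exists_surjective_nat (Set ℕ)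
    exact Function.cantor_surjective f hf
  let x : X := ind (U p α)
  have hx : ∀ k, |x k - 1| ≤ 1 := by
    intro k
    by_cases hk : k ∈ U p α
    · rw [show x k = 1 from ind_of_mem hk]; simp
    · rw [show x k = 0 from ind_of_notMem hk]; simp
  have key : ∀ j ∈ M α, δ / 2 ≤ |φ (q (j + 1)).1 x| := by
    intro j hj
    set ψ := φ (q (j + 1)).1 with hψ
    have e1 : ψ x = ∑' k, co ψ k * x k := by
      have h1 : sing ψ x = ψ x - ell ψ x := rfl
      rw [hα j] at h1
      rw [← ell_apply]
      linarith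
    have e2 : ∑' k, co ψ k * x k - ∑' k, co ψ k = ∑' k, co ψ k * (x k - 1) := by
      rw [← (summable_mul ψ x).tsum_sub (summable_co ψ)]
      apply tsum_congr
      intro k
      ring
    have hS : Summable fun k => |co ψ k| * |x k - 1| :=
      Summable.of_nonneg_of_le (fun k => by positivity)
        (fun k => mul_le_of_le_one_right (abs_nonneg _) (hx k)) (summable_abs ψ)
    have hI : Summable fun k => if k ∈ Finset.Ico (p j) (p (j + 1)) then |co ψ k| else 0 :=
      summable_of_ne_finset_zero (s := Finset.Ico (p j) (p (j + 1))) fun k hk => if_neg hk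
    have e3 : |∑' k, co ψ k * (x k - 1)| ≤
        ∑' k, |co ψ k| - ∑ k ∈ Finset.Ico (p j) (p (j + 1)), |co ψ k| := by
      calc |∑' k, co ψ k * (x k - 1)| ≤ ∑' k, |co ψ k| * |x k - 1| := by
            rw [← Real.norm_eq_abs]
            refine tsum_of_norm_bounded hS.hasSum fun k => ?_
            rw [norm_mul, Real.norm_eq_abs, Real.norm_eq_abs]
        _ ≤ ∑' k, (|co ψ k| - if k ∈ Finset.Ico (p j) (p (j + 1)) then |co ψ k| else 0) := by
            refine hS.tsum_le_tsum (fun k => ?_) ((summable_abs ψ).sub hI)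
            by_cases hk : k ∈ Finset.Ico (p j) (p (j + 1))
            · have hkU : k ∈ U p α := ⟨j, hj, Finset.mem_Ico.mp hk⟩
              rw [if_pos hk, show x k = 1 from ind_of_mem hkU]
              simp
            · rw [if_neg hk, sub_zero]
              exact mul_le_of_le_one_right (abs_nonneg _) (hx k)
        _ = _ := by
            rw [(summable_abs ψ).tsum_sub hI]
            congr 1
            rw [tsum_eq_sum (s := Finset.Ico (p j) (p (j + 1))) fun k hk => if_neg hk]
            exact Finset.sum_congr rfl fun k hk => if_pos hk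
    have e4 : ∑' k, |co ψ k| - ∑ k ∈ Finset.Ico (p j) (p (j + 1)), |co ψ k| < δ / 4 := hn4 (q j)
    have e5 : δ ≤ |∑' k, co ψ k| := hn3 (q j)
    have e6 : |∑' k, co ψ k| ≤ |ψ x| + |∑' k, co ψ k * (x k - 1)| := by
      have e7 : ∑' k, co ψ k = ψ x - ∑' k, co ψ k * (x k - 1) := by
        rw [← e2, e1]; ring
      rw [e7]
      exact abs_sub _ _
    linarith
  obtain ⟨N, hN⟩ := Metric.tendsto_atTop.mp (h x) (δ / 2) (by positivity)
  obtain ⟨j, hj, hNj⟩ := (M_infinite α).exists_gt N
  have h1 := key j hj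
  have h2 : j + 1 ≤ (q (j + 1)).1 := hnn.id_le (j + 1)
  have h3 := hN (q (j + 1)).1 (by omega)
  rw [Real.dist_eq, sub_zero] at h3
  exact absurd h3 (not_lt.mpr h1)

end hump

/-! ## Characters -/

/-- The character given by a functional. -/
noncomputable def char (φ : X →L[ℝ] ℝ) : Dual X where
  toFun x := ((φ x : ℝ) : UnitAddCircle)
  map_zero' := by rw [map_zero]; rfl
  map_add' x y := by rw [map_add]; rfl
  continuous_toFun := (AddCircle.continuous_mk' 1).comp φ.continuous

theorem char_apply (φ : X →L[ℝ] ℝ) (x : X) : char φ x = ((φ x : ℝ) : UnitAddCircle) := rfl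

theorem exists_lift (χ : Dual X) : ∃ φ : X →L[ℝ] ℝ, char φ = χ := by
  obtain ⟨F, ⟨hF0, hF⟩, -⟩ := (AddCircle.isCoveringMap_coe (1 : ℝ)).existsUnique_continuousMap_lifts
    (A := X) (χ.toContinuousMap) 0 0 (by
      show ((0 : ℝ) : UnitAddCircle) = χ 0
      rw [map_zero]; rfl)
  have hF' : ∀ x, ((F x : ℝ) : UnitAddCircle) = χ x := fun x => congrFun hF x
  have hadd : ∀ x y, F (x + y) = F x + F y := by
    intro x y
    let g : X × X → ℝ := fun q => F (q.1 + q.2) - F q.1 - F q.2
    have hg : Continuous g :=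
      ((F.continuous.comp (continuous_fst.add continuous_snd)).sub
        (F.continuous.comp continuous_fst)).sub (F.continuous.comp continuous_snd)
    have hmaps : MapsTo g univ (AddSubgroup.zmultiples (1 : ℝ) : Set ℝ) := by
      intro q _
      have h1 : ((g q : ℝ) : UnitAddCircle) = 0 := by
        show ((F (q.1 + q.2) - F q.1 - F q.2 : ℝ) : UnitAddCircle) = 0
        rw [AddCircle.coe_sub, AddCircle.coe_sub, hF', hF', hF', map_add]
        abel
      obtain ⟨n, hn⟩ := (AddCircle.coe_eq_zero_iff (1 : ℝ)).mp h1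
      exact AddSubgroup.mem_zmultiples_iff.mpr ⟨n, hn⟩
    have h2 := isPreconnected_univ.constant_of_mapsTo
      ⟨(inferInstance : DiscreteTopology (AddSubgroup.zmultiples (1 : ℝ)))⟩ hg.continuousOn hmaps
      (mem_univ (x, y)) (mem_univ ((0 : X), (0 : X)))
    have h3 : g ((0 : X), (0 : X)) = 0 := by
      show F (0 + 0) - F 0 - F 0 = 0
      rw [add_zero, hF0]; ring
    rw [h3] at h2
    have h4 : F (x + y) - F x - F y = 0 := h2
    linarith
  let f : X →+ ℝ := { toFun := F, map_zero' := hF0, map_add' := hadd }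
  refine ⟨f.toRealLinearMap F.continuous, ?_⟩
  ext x
  exact hF' x

theorem small {v ε : ℝ} (hε : 0 < ε) (hε2 : ε ≤ 1 / 2)
    (h : ∀ t ∈ Icc (0 : ℝ) 1, ‖((t * v : ℝ) : UnitAddCircle)‖ < ε) : |v| < ε := by
  by_contra hcon
  push Not at hcon
  have hv : 0 < |v| := lt_of_lt_of_le hε hcon
  have h1 := h (ε / |v|) ⟨by positivity, (div_le_one hv).mpr hcon⟩
  have h2 : |ε / |v| * v| = ε := by
    rw [abs_mul, abs_div, abs_abs, abs_of_pos hε]
    field_simp
  have h3 : ‖((ε / |v| * v : ℝ) : UnitAddCircle)‖ = ε := by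
    rw [(AddCircle.norm_coe_eq_abs_iff (1 : ℝ) one_ne_zero).mpr, h2]
    rw [h2, abs_one]
    exact hε2
  rw [h3] at h1
  exact lt_irrefl _ h1

theorem char_injective : Function.Injective char := by
  intro φ ψ h
  ext x
  have key : ∀ ε : ℝ, 0 < ε → ε ≤ 1 / 2 → |φ x - ψ x| < ε := by
    intro ε h1 h2
    refine small h1 h2 fun t _ => ?_
    have h3 : t * (φ x - ψ x) = φ (t • x) - ψ (t • x) := by
      rw [map_smul, map_smul, smul_eq_mul, smul_eq_mul]; ring
    rw [h3, AddCircle.coe_sub, ← char_apply, ← char_apply, h, sub_self, norm_zero]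
    exact h1
  by_contra hne
  have hpos : 0 < |φ x - ψ x| := abs_pos.mpr (sub_ne_zero.mpr hne)
  have h1 := key (min |φ x - ψ x| (1 / 2)) (by positivity) (min_le_right _ _)
  exact absurd h1 (not_lt.mpr (min_le_left _ _))

theorem char_add (φ ψ : X →L[ℝ] ℝ) : char (φ + ψ) = char φ + char ψ := by
  ext x
  rfl

/-- The functional of a character. -/
noncomputable def lift (χ : Dual X) : X →L[ℝ] ℝ := (exists_lift χ).choose

theorem char_lift (χ : Dual X) : char (lift χ) = χ := (exists_lift χ).choose_spec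

theorem lift_char (φ : X →L[ℝ] ℝ) : lift (char φ) = φ := char_injective (char_lift _)

theorem lift_add (χ ξ : Dual X) : lift (χ + ξ) = lift χ + lift ξ := by
  apply char_injective
  rw [char_add, char_lift, char_lift, char_lift]

/-- The sum functional on the dual group. -/
noncomputable def F : Dual X →+ ℝ where
  toFun χ := ∑' k, co (lift χ) k
  map_zero' := by
    have h1 : lift 0 = 0 := by
      have h2 := lift_add 0 0
      rw [add_zero] at h2
      ext x
      have h3 : lift 0 x = lift 0 x + lift 0 x := congrArg (fun f : X →L[ℝ] ℝ => f x) h2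
      show lift 0 x = 0
      linarith
    rw [h1]
    have : ∀ k, co (0 : X →L[ℝ] ℝ) k = 0 := fun k => rfl
    simp only [this, tsum_zero]
  map_add' χ ξ := by
    rw [← (summable_co (lift χ)).tsum_add (summable_co (lift ξ))]
    apply tsum_congr
    intro k
    rw [lift_add]
    rfl

theorem F_apply (χ : Dual X) : F χ = ∑' k, co (lift χ) k := rfl

theorem tendsto_iff {ι : Type*} {l : Filter ι} {s : ι → Dual X} :
    Tendsto s l (𝓝 0) ↔ ∀ K : Set X, IsCompact K → ∀ ε > 0, ∀ᶠ i in l, ∀ x ∈ K, ‖s i x‖ < ε := by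
  rw [(ContinuousAddMonoidHom.isInducing_toContinuousMap X UnitAddCircle).tendsto_nhds_iff,
    ContinuousMap.tendsto_iff_forall_isCompact_tendstoUniformlyOn]
  apply forall_congr'
  intro K
  apply imp_congr_right
  intro _
  rw [Metric.tendstoUniformlyOn_iff]
  apply forall_congr'
  intro ε
  apply imp_congr_right
  intro _
  apply eventually_congr
  refine Eventually.of_forall fun i => ?_
  apply forall_congr'
  intro x
  apply imp_congr_right
  intro _
  have h1 : dist ((0 : Dual X).toContinuousMap x) ((s i).toContinuousMap x) = ‖s i x‖ := by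
    show dist (0 : UnitAddCircle) (s i x) = _
    rw [dist_comm, dist_zero_right]
  show dist ((0 : Dual X).toContinuousMap x) ((s i).toContinuousMap x) < ε ↔ _
  rw [h1]

theorem F_seq (s : ℕ → Dual X) (hs : Tendsto s atTop (𝓝 0)) :
    Tendsto (fun n => F (s n)) atTop (𝓝 0) := by
  refine phillips (fun n => lift (s n)) fun x => ?_
  rw [tendsto_iff] at hs
  rw [Metric.tendsto_atTop]
  intro ε hε
  have hK : IsCompact ((fun t : ℝ => t • x) '' Icc 0 1) :=
    isCompact_Icc.image (continuous_id.smul continuous_const)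
  obtain ⟨N, hN⟩ := eventually_atTop.mp (hs _ hK (min ε (1 / 2)) (by positivity))
  refine ⟨N, fun n hn => ?_⟩
  rw [Real.dist_eq, sub_zero]
  refine lt_of_lt_of_le (small (v := lift (s n) x) (ε := min ε (1 / 2)) (by positivity)
    (min_le_right _ _) fun t ht => ?_) (min_le_left _ _)
  have h1 := hN n hn (t • x) ⟨t, ht, rfl⟩
  rw [← char_lift (s n), char_apply, map_smul, smul_eq_mul] at h1
  exact h1

/-! ## The sum functional is not continuous -/

/-- A nonprincipal ultrafilter. -/
noncomputable abbrev u : Filter ℕ := (Filter.hyperfilter ℕ : Ultrafilter ℕ)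

theorem exists_lim (x : X) : ∃ l : ℝ, Tendsto x u (𝓝 l) := by
  have h1 : IsCompact (Metric.closedBall (0 : ℝ) ‖x‖) := isCompact_closedBall _ _
  obtain ⟨l, -, hl⟩ := h1.ultrafilter_le_nhds ((Filter.hyperfilter ℕ).map x) (by
    rw [le_principal_iff]
    have h2 : (x : ℕ → ℝ) ⁻¹' Metric.closedBall (0 : ℝ) ‖x‖ ∈ u := Filter.univ_mem' fun n => by
      rw [mem_preimage, mem_closedBall_zero_iff]
      exact x.norm_coe_le_norm n
    exact h2)
  exact ⟨l, hl⟩

/-- The limit of a bounded sequence along the ultrafilter. -/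
noncomputable def lm (x : X) : ℝ := (exists_lim x).choose

theorem tendsto_lm (x : X) : Tendsto x u (𝓝 (lm x)) := (exists_lim x).choose_spec

/-- The limit functional. -/
noncomputable def limu : X →L[ℝ] ℝ :=
  LinearMap.mkContinuous
    { toFun := lm
      map_add' := fun x y =>
        tendsto_nhds_unique (tendsto_lm (x + y)) ((tendsto_lm x).add (tendsto_lm y))
      map_smul' := fun c x =>
        tendsto_nhds_unique (tendsto_lm (c • x)) ((tendsto_lm x).const_mul c) }
    1 (fun x => by
      rw [one_mul]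
      exact le_of_tendsto (tendsto_lm x).norm
        (Filter.Eventually.of_forall fun n => x.norm_coe_le_norm n))

theorem limu_apply (x : X) : limu x = lm x := rfl

/-- The evaluation functionals. -/
noncomputable def ev (m : ℕ) : X →L[ℝ] ℝ := BoundedContinuousFunction.evalCLM ℝ m

theorem ev_apply (m : ℕ) (x : X) : ev m x = x m := rfl

theorem limu_single (k : ℕ) : limu (ind {k}) = 0 := by
  rw [limu_apply]
  refine tendsto_nhds_unique (tendsto_lm (ind {k})) ?_
  refine (tendsto_const_nhds (x := (0 : ℝ))).congr' ?_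
  have h1 : ({k}ᶜ : Set ℕ) ∈ u := (Set.finite_singleton k).compl_mem_hyperfilter
  filter_upwards [h1] with n hn
  exact (ind_of_notMem hn).symm

theorem F_char (m : ℕ) : F (char (ev m - limu)) = 1 := by
  rw [F_apply, lift_char, tsum_eq_single m]
  · show ev m (ind {m}) - limu (ind {m}) = 1
    rw [limu_single, ev_apply, ind_of_mem (Set.mem_singleton m), sub_zero]
  · intro k hk
    show ev m (ind {k}) - limu (ind {k}) = 0
    rw [limu_single, ev_apply, ind_of_notMem (fun h => hk (Set.mem_singleton_iff.mp h).symm),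
      sub_zero]

theorem norm_coe_le (v : ℝ) : ‖((v : ℝ) : UnitAddCircle)‖ ≤ |v| := by
  rw [AddCircle.norm_eq, inv_one, one_mul, mul_one]
  have := round_le v 0
  simpa using this

theorem tendsto_char : Tendsto (fun m => char (ev m - limu)) u (𝓝 0) := by
  rw [tendsto_iff]
  intro K hK ε hε
  obtain ⟨t, ht, hKt⟩ := Metric.totallyBounded_iff.mp hK.totallyBounded (ε / 4) (by positivity)
  have h1 : ∀ᶠ m in u, ∀ y ∈ t, |y m - limu y| < ε / 4 := by
    refine (Filter.eventually_all_finite ht).mpr fun y _ => ?_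
    have h2 : Tendsto (fun m => |y m - lm y|) u (𝓝 0) := by
      have h3 := ((tendsto_lm y).sub_const (lm y)).abs
      rwa [sub_self, abs_zero] at h3
    exact h2.eventually (gt_mem_nhds (by positivity))
  filter_upwards [h1] with m hm x hx
  obtain ⟨y, hy, hxy⟩ := Set.mem_iUnion₂.mp (hKt hx)
  rw [Metric.mem_ball, dist_eq_norm] at hxy
  have h2 := hm y hy
  have h3 : |(x - y) m| < ε / 4 := lt_of_le_of_lt ((x - y).norm_coe_le_norm m) hxy
  have h4 : |limu (x - y)| < ε / 4 := by
    refine lt_of_le_of_lt ?_ hxy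
    exact le_of_tendsto (tendsto_lm (x - y)).norm
      (Filter.Eventually.of_forall fun n => (x - y).norm_coe_le_norm n)
  refine lt_of_le_of_lt (norm_coe_le _) ?_
  have h5 : (ev m - limu) x = (x - y) m + (y m - limu y) - limu (x - y) := by
    rw [map_sub]
    show x m - limu x = (x m - y m) + (y m - limu y) - (limu x - limu y)
    ring
  rw [h5]
  calc |(x - y) m + (y m - limu y) - limu (x - y)| ≤
        |(x - y) m + (y m - limu y)| + |limu (x - y)| := abs_sub _ _
    _ ≤ |(x - y) m| + |y m - limu y| + |limu (x - y)| := by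
        gcongr
        exact abs_add_le _ _
    _ < ε := by linarith

theorem F_not_continuous : ¬ Continuous F := by
  intro h
  have h1 : Tendsto (fun m => F (char (ev m - limu))) u (𝓝 (F 0)) :=
    (h.tendsto 0).comp tendsto_char
  rw [map_zero] at h1
  simp only [F_char] at h1
  exact one_ne_zero (tendsto_nhds_unique tendsto_const_nhds h1)

/-- The dual of the metrizable, non-separable group of all bounded real sequences (with the
supremum norm) is not an s-group. -/
theorem not_isSGroup_dual : ¬ IsSGroup (Dual X) :=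
  not_isSGroup F F_seq F_not_continuous

/-- There is an Abelian Hausdorff topological group `G` that is metrizable and not separable (so
also Fréchet-Urysohn and sequential) whose dual group is not an s-group. -/
theorem result : ∃ (G : Type) (_ : AddCommGroup G) (_ : TopologicalSpace G),
    IsTopologicalAddGroup G ∧ T2Space G ∧ TopologicalSpace.MetrizableSpace G ∧
      ¬ TopologicalSpace.SeparableSpace G ∧ FrechetUrysohnSpace G ∧ SequentialSpace G ∧
      ¬ IsSGroup (Dual G) :=
  ⟨X, inferInstance, inferInstance, inferInstance, inferInstance, inferInstance, not_separable,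
    inferInstance, inferInstance, not_isSGroup_dual⟩

end Pool.Agent.Results.MP_c8715f_al.DualNotS
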